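import Pool.Agent.H.MP_929345_co.Pl.CyB
import Pool.Agent.H.MP_929345_co.Pl.CyC

/-! Layered packings: definitions. -/

set_option autoImplicit false

open MeasureTheory Set Filter
open scoped Topology ENNReal

namespace Pool.Agent.H.MP_929345_co.Ly

open Pool.Agent.H.MP_929345_co Pool.Agent.H.MP_929345_co.Pl

/-- Any two members lie in the same layer, or in layers at distance at least `2`. -/
def Layered {d n : ℕ} (u : Fin n → ((Fin d → ℝ) →L[ℝ] ℝ)) (S : Set (Fin d → ℝ)) : Prop :=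
  ∀ x ∈ S, ∀ y ∈ S, (∀ i, u i x = u i y) ∨ ∃ i, 2 ≤ |u i x - u i y|

/-- A lattice of full rank: the preimage of the integer vectors under a linear automorphism. -/
def IsLat {d : ℕ} (S : Set (Fin d → ℝ)) : Prop :=
  ∃ B : (Fin d → ℝ) ≃L[ℝ] (Fin d → ℝ), S = {x | ∀ i, ∃ m : ℤ, B x i = m}

/-- The same as `Layered`, in the coordinates `A`. -/
def LayA {d n : ℕ} (A : (Fin d → ℝ) ≃L[ℝ] V × (Fin n → ℝ)) (S : Set (Fin d → ℝ)) : Prop :=
  ∀ x ∈ S, ∀ y ∈ S, (A x).2 = (A y).2 ∨ ∃ i, 2 ≤ |(A x).2 i - (A y).2 i|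

/-- The planar section of `C`. -/
def Ks {d n : ℕ} (A : (Fin d → ℝ) ≃L[ℝ] V × (Fin n → ℝ)) (C : Set (Fin d → ℝ)) : Set V :=
  {v | A.symm (v, 0) ∈ C}

/-- The centres of a tiling by parallelepipeds. -/
def Lg {d : ℕ} (g : Fin d → ((Fin d → ℝ) →L[ℝ] ℝ)) : Set (Fin d → ℝ) :=
  {x | ∀ i, ∃ m : ℤ, g i x = 2 * m}

/-- The parallelepiped. -/
def Pg {d : ℕ} (g : Fin d → ((Fin d → ℝ) →L[ℝ] ℝ)) : Set (Fin d → ℝ) := {x | ∀ i, |g i x| ≤ 1}

end Pool.Agent.H.MP_929345_co.Ly
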