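import Pool.Agent.H.MP_929345_co.Ly.Df

/-! Coordinates adapted to the layers. -/

set_option autoImplicit false

open MeasureTheory Set Filter
open scoped Topology ENNReal

namespace Pool.Agent.H.MP_929345_co.Ly

open Pool.Agent.H.MP_929345_co Pool.Agent.H.MP_929345_co.Pl

/-- `LinearMap.pi u` is onto (finite dimension, linear independence), its kernel has dimension 2;
take a linear map onto `V` whose kernel is a complement (or a basis of the kernel and a right
inverse), and `LinearMap.equivProdOfSurjectiveOfIsCompl`. -/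
theorem exists_A {n : ℕ} (u : Fin n → ((Fin (n + 2) → ℝ) →L[ℝ] ℝ)) (hu : LinearIndependent ℝ u) :
    ∃ A : (Fin (n + 2) → ℝ) ≃L[ℝ] V × (Fin n → ℝ), ∀ x i, (A x).2 i = u i x := by
  classical
  obtain ⟨P, hP⟩ : ∃ P : (Fin (n + 2) → ℝ) →ₗ[ℝ] (Fin n → ℝ), ∀ x i, P x i = u i x :=
    ⟨LinearMap.pi fun i => ((u i : (Fin (n + 2) → ℝ) →L[ℝ] ℝ) : (Fin (n + 2) → ℝ) →ₗ[ℝ] ℝ),
      fun x i => rfl⟩
  have hsurj : LinearMap.range P = ⊤ := by
    by_contra hne
    obtain ⟨f, hf0, hf⟩ := Submodule.exists_le_ker_of_lt_top _ (lt_top_iff_ne_top.2 hne)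
    apply hf0
    have h1 : ∑ i, f (Pi.single i 1) • u i = 0 := by
      ext x
      have h2 : f (P x) = 0 := hf ⟨x, rfl⟩
      have h3 : P x = ∑ i, u i x • (Pi.single i (1 : ℝ) : Fin n → ℝ) := by
        funext j
        rw [hP, Finset.sum_apply]
        simp [Pi.single_apply]
      rw [h3, map_sum] at h2
      simp only [map_smul, smul_eq_mul] at h2
      simp only [sum_apply, smul_apply, smul_eq_mul, zero_apply]
      rw [← h2]
      exact Finset.sum_congr rfl fun i _ => mul_comm _ _
    have h4 := Fintype.linearIndependent_iff.1 hu (fun i => f (Pi.single i 1)) h1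
    refine LinearMap.pi_ext fun i c => ?_
    have h5 : (Pi.single i c : Fin n → ℝ) = c • Pi.single i (1 : ℝ) := by
      rw [← Pi.single_smul, smul_eq_mul, mul_one]
    rw [h5, map_smul, h4 i, smul_zero, LinearMap.zero_apply]
  have hk : Module.finrank ℝ (LinearMap.ker P) = 2 := by
    have h1 := LinearMap.finrank_range_add_finrank_ker P
    rw [hsurj, finrank_top, Module.finrank_fin_fun, Module.finrank_fin_fun] at h1
    omega
  have hV : Module.finrank ℝ V = 2 := by
    simp [V]
  obtain ⟨e⟩ : Nonempty (LinearMap.ker P ≃ₗ[ℝ] V) :=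
    ⟨LinearEquiv.ofFinrankEq _ _ (hk.trans hV.symm)⟩
  obtain ⟨g, hg⟩ := LinearMap.exists_leftInverse_of_injective (LinearMap.ker P).subtype
    (Submodule.ker_subtype _)
  have hg' : ∀ x : LinearMap.ker P, g x.1 = x := fun x => LinearMap.congr_fun hg x
  have hinj : Function.Injective ((e.toLinearMap.comp g).prod P) := by
    rw [← LinearMap.ker_eq_bot, LinearMap.ker_eq_bot']
    intro x hx
    have hx1 : e (g x) = 0 := congrArg Prod.fst hx
    have hx2 : P x = 0 := congrArg Prod.snd hx
    have h1 : g x = 0 := e.injective (by rw [map_zero]; exact hx1)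
    have h2 := hg' ⟨x, LinearMap.mem_ker.2 hx2⟩
    rw [h1] at h2
    exact (congrArg Subtype.val h2).symm
  have hdim : Module.finrank ℝ (Fin (n + 2) → ℝ) = Module.finrank ℝ (V × (Fin n → ℝ)) := by
    rw [Module.finrank_prod, hV, Module.finrank_fin_fun, Module.finrank_fin_fun]
    omega
  refine ⟨(LinearEquiv.ofInjectiveOfFinrankEq _ hinj hdim).toContinuousLinearEquiv,
    fun x i => ?_⟩
  rw [← hP]
  rfl

end Pool.Agent.H.MP_929345_co.Ly
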