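import Pool.Agent.H.MP_929345_co.Ly.Kb

/-! Extension of side functionals. -/

set_option autoImplicit false

open MeasureTheory Set Filter
open scoped Topology ENNReal

namespace Pool.Agent.H.MP_929345_co.Ly

open Pool.Agent.H.MP_929345_co Pool.Agent.H.MP_929345_co.Pl

variable {d n : ℕ} (A : (Fin d → ℝ) ≃L[ℝ] V × (Fin n → ℝ)) {C : Set (Fin d → ℝ)}

private def hb_ev (a : V) : V →ₗ[ℝ] ℝ where
  toFun v := ev a v
  map_add' x y := ev_add a x y
  map_smul' t x := ev_smul a t x

private def hb_j : V →ₗ[ℝ] (Fin d → ℝ) where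
  toFun v := A.symm (v, 0)
  map_add' x y := by
    rw [← map_add]; congr 1; simp
  map_smul' t x := by
    rw [RingHom.id_apply, ← map_smul]; congr 1; simp

private lemma hb_inj : Function.Injective (hb_j A) := by
  intro x y h
  have h1 : A.symm (x, 0) = A.symm (y, 0) := h
  exact congrArg Prod.fst (A.symm.injective h1)

private lemma hb_le {K : Set V} (hK : IsBody K) (a v : V) : ev a v ≤ Pl.hs K a * gauge K v := by
  have hbdd : BddAbove (ev a '' K) :=
    (hK.compact.image (continuous_ev a)).bddAbove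
  rcases (gauge_nonneg (s := K) v).lt_or_eq with hg | hg
  · have hm2 : (gauge K v)⁻¹ • v ∈ K := by
      apply hK.gauge_le_one_iff.1
      rw [gauge_smul_of_nonneg (by positivity), smul_eq_mul, inv_mul_cancel₀ hg.ne']
    have h3 : ev a ((gauge K v)⁻¹ • v) ≤ Pl.hs K a := le_csSup hbdd ⟨_, hm2, rfl⟩
    rw [ev_smul, inv_mul_le_iff₀ hg] at h3
    linarith
  · have hz0 : v = 0 := (hK.gauge_eq_zero_iff v).1 hg.symm
    rw [hz0, ev_zero]
    simp

/-- `exists_extension_of_le_sublinear` with the sublinear function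
`x ↦ hs (Ks A C) a * gauge C x` and the functional `A.symm (v, 0) ↦ ev a v` on the plane of the
section; `ks_gauge`; in finite dimension the extension is continuous
(`LinearMap.toContinuousLinearMap`). -/
theorem exists_ext (hC : IsBody C) (a : V) : ∃ f : (Fin d → ℝ) →L[ℝ] ℝ,
    (∀ v : V, f (A.symm (v, 0)) = ev a v) ∧ ∀ x ∈ C, |f x| ≤ Pl.hs (Ks A C) a := by
  have hK := ks_isBody A hC
  have h0 : 0 ≤ Pl.hs (Ks A C) a := by
    have hbdd : BddAbove (ev a '' Ks A C) :=
      (hK.compact.image (continuous_ev a)).bddAbove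
    have : ev a 0 ≤ Pl.hs (Ks A C) a := le_csSup hbdd ⟨0, zero_mem hK, rfl⟩
    rwa [ev_zero] at this
  set e := LinearEquiv.ofInjective (hb_j A) (hb_inj A) with he
  set F : (Fin d → ℝ) →ₗ.[ℝ] ℝ := ⟨LinearMap.range (hb_j A), (hb_ev a) ∘ₗ e.symm.toLinearMap⟩
    with hF
  have hnh : Absorbent ℝ C := hC.absorbent
  obtain ⟨g, hg1, hg2⟩ := exists_extension_of_le_sublinear F
    (fun x => Pl.hs (Ks A C) a * gauge C x)
    (by
      intro c hc x
      rw [gauge_smul_of_nonneg hc.le, smul_eq_mul]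
      ring)
    (by
      intro x y
      rw [← mul_add]
      exact mul_le_mul_of_nonneg_left (gauge_add_le hC.convex hnh x y) h0)
    (by
      rintro ⟨x, hx⟩
      obtain ⟨v, rfl⟩ := hx
      have h1 : e v = ⟨hb_j A v, ⟨v, rfl⟩⟩ := rfl
      have h2 : F ⟨hb_j A v, ⟨v, rfl⟩⟩ = ev a v := by
        rw [← h1]
        show (hb_ev a) (e.symm (e v)) = _
        rw [LinearEquiv.symm_apply_apply]
        rfl
      rw [h2]
      have h3 : gauge C (hb_j A v) = gauge (Ks A C) v := (ks_gauge A C v).symm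
      simp only
      rw [h3]
      exact hb_le hK a v)
  refine ⟨LinearMap.toContinuousLinearMap g, ?_, ?_⟩
  · intro v
    have h1 : e v = ⟨hb_j A v, ⟨v, rfl⟩⟩ := rfl
    have h2 : F ⟨hb_j A v, ⟨v, rfl⟩⟩ = ev a v := by
      rw [← h1]
      show (hb_ev a) (e.symm (e v)) = _
      rw [LinearEquiv.symm_apply_apply]
      rfl
    rw [← h2, ← hg1]
    rfl
  · intro x hx
    have h1 := hg2 x
    have h2 := hg2 (-x)
    have h3 : gauge C x ≤ 1 := gauge_le_one_of_mem hx
    have h4 : gauge C (-x) ≤ 1 := gauge_le_one_of_mem (hC.symm x hx)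
    have h5 := mul_le_mul_of_nonneg_left h3 h0
    have h6 := mul_le_mul_of_nonneg_left h4 h0
    rw [map_neg] at h2
    rw [LinearMap.coe_toContinuousLinearMap', abs_le]
    constructor <;> linarith

end Pool.Agent.H.MP_929345_co.Ly
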