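import Pool.Agent.H.MP_929345_co.Ly.La

/-! Lattice tilings by parallelepipeds: density. -/

set_option autoImplicit false

open MeasureTheory Set Filter
open scoped Topology ENNReal

namespace Pool.Agent.H.MP_929345_co.Ly

open Pool.Agent.H.MP_929345_co Pool.Agent.H.MP_929345_co.Pl

variable {d : ℕ}

/-- Every point is within `Pg g` of a point of the lattice. -/
theorem lg_near (g : Fin d → ((Fin d → ℝ) →L[ℝ] ℝ)) (hg : LinearIndependent ℝ g)
    (y : Fin d → ℝ) : ∃ x ∈ Lg g, y - x ∈ Pg g := by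
  obtain ⟨B, hB⟩ := exists_coord g hg
  have hch : ∀ i : Fin d, ∃ k : ℤ, |g i y - 2 * 1 * k| ≤ 1 := fun i =>
    exists_near_mul 1 _ one_pos
  choose k hk using hch
  set x : Fin d → ℝ := B.symm (fun i => 2 * (k i : ℝ)) with hx
  have hgx : ∀ i, g i x = 2 * (k i : ℝ) := by
    intro i
    rw [← hB, hx, ContinuousLinearEquiv.apply_symm_apply]
  refine ⟨x, fun i => ⟨k i, hgx i⟩, fun i => ?_⟩
  rw [map_sub, hgx]
  have := hk i
  rw [mul_one] at this
  exact this

/-- The parallelepiped is compact. -/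
theorem pg_compact (g : Fin d → ((Fin d → ℝ) →L[ℝ] ℝ)) (hg : LinearIndependent ℝ g) :
    IsCompact (Pg g) := by
  obtain ⟨B, hB⟩ := exists_coord g hg
  have h1 : Pg g = B ⁻¹' (Metric.closedBall (0 : Fin d → ℝ) 1) := by
    ext x
    rw [mem_preimage, mem_closedBall_zero_iff, pi_norm_le_iff_of_nonneg zero_le_one]
    refine forall_congr' fun i => ?_
    rw [hB, Real.norm_eq_abs]
  rw [h1]
  have h := (isCompact_closedBall (0 : Fin d → ℝ) 1).image B.symm.continuous
  rwa [B.symm.image_eq_preimage_symm, B.symm_symm] at h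

/-- As in the second half of `Pl.cyl_lattice` (Pl/CyB.lean): the translates of `Pg g` by the
points of the lattice in a slightly larger cube cover the cube. -/
theorem lg_dens {C : Set (Fin d → ℝ)} (hC : IsBody C) (g : Fin d → ((Fin d → ℝ) →L[ℝ] ℝ))
    (hg : LinearIndependent ℝ g) (hgC : ∀ i, ∀ x ∈ C, |g i x| ≤ 1) :
    ENNReal.ofReal ((volume C).toReal / (volume (Pg g)).toReal) ≤ dens C (Lg g) := by
  have hPc := pg_compact g hg
  have hCP : C ⊆ Pg g := fun x hx i => hgC i x hx
  have hCfin : volume C ≠ ⊤ := hC.compact.measure_lt_top.ne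
  have hPfin : volume (Pg g) ≠ ⊤ := hPc.measure_lt_top.ne
  have hCpos : 0 < volume C :=
    lt_of_lt_of_le (isOpen_interior.measure_pos volume hC.nonempty) (measure_mono interior_subset)
  set vC : ℝ := (volume C).toReal with hvC
  set vP : ℝ := (volume (Pg g)).toReal with hvP
  have hv : 0 < vC := ENNReal.toReal_pos hCpos.ne' hCfin
  have hP : 0 < vP := ENNReal.toReal_pos (hCpos.trans_le (measure_mono hCP)).ne' hPfin
  have hvolC : volume C = ENNReal.ofReal vC := (ENNReal.ofReal_toReal hCfin).symm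
  have hvolP : volume (Pg g) = ENNReal.ofReal vP := (ENNReal.ofReal_toReal hPfin).symm
  obtain ⟨a0, hCa0⟩ := hC.compact.isBounded.subset_closedBall (0 : Fin d → ℝ)
  obtain ⟨P0, hP0⟩ := hPc.isBounded.subset_closedBall (0 : Fin d → ℝ)
  set a1 : ℝ := |a0| with ha1
  have hCa : C ⊆ Metric.closedBall (0 : Fin d → ℝ) a1 :=
    hCa0.trans (Metric.closedBall_subset_closedBall (le_abs_self _))
  have ha10 : 0 ≤ a1 := abs_nonneg _
  set P : ℝ := |P0| with hPdef
  have hPP : Pg g ⊆ Metric.closedBall (0 : Fin d → ℝ) P :=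
    hP0.trans (Metric.closedBall_subset_closedBall (le_abs_self _))
  have hP00 : 0 ≤ P := abs_nonneg _
  rw [dens_def]
  have hlim : Tendsto (fun r : ℝ => ENNReal.ofReal
      (vC / vP * (1 - (a1 + P) / r) ^ d)) atTop (𝓝 (ENNReal.ofReal (vC / vP))) := by
    have h1 : Tendsto (fun r : ℝ => vC / vP * (1 - (a1 + P) / r) ^ d) atTop
        (𝓝 (vC / vP * (1 - 0) ^ d)) :=
      ((tendsto_const_nhds.sub (tendsto_const_nhds.div_atTop tendsto_id)).pow d).const_mul _
    simp only [sub_zero, one_pow, mul_one] at h1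
    exact ENNReal.tendsto_ofReal h1
  rw [← hlim.limsup_eq]
  refine limsup_le_limsup ?_
  filter_upwards [eventually_ge_atTop (a1 + P + 1)] with r hr
  have hr0 : 0 < r := by linarith
  set s : ℝ := r - (a1 + P) with hs'
  have hs0 : 0 ≤ s := by linarith
  have hfin : (Lg g ∩ Win C r).Finite :=
    finite_inter hC (fun x hx y hy hne => by linarith [lg_packing hC g hg hgC x hx y hy hne])
      hr0.le
  have hcov : {x : Fin d → ℝ | ∀ i, |x i| ≤ s} ⊆
      ⋃ x ∈ hfin.toFinset, (fun y => x + y) '' Pg g := by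
    intro y hy
    obtain ⟨x, hx1, hyx⟩ := lg_near g hg y
    have hn1 : ‖y - x‖ ≤ P := by simpa using hPP hyx
    rw [mem_iUnion₂]
    refine ⟨x, ?_, ⟨y - x, hyx, by simp⟩⟩
    rw [Set.Finite.mem_toFinset]
    refine ⟨hx1, ?_⟩
    intro w hw i
    have h2 : ‖w‖ ≤ a1 := by simpa using hCa hw
    have h3 := norm_le_pi_norm w i
    have h4 := norm_le_pi_norm (y - x) i
    rw [Real.norm_eq_abs] at h3 h4
    have h5 := hy i
    have e : x i + w i = y i + -((y - x) i) + w i := by simp
    rw [e]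
    calc |y i + -((y - x) i) + w i| ≤ |y i + -((y - x) i)| + |w i| := abs_add_le _ _
      _ ≤ |y i| + |-((y - x) i)| + |w i| := by gcongr; exact abs_add_le _ _
      _ ≤ s + P + a1 := by rw [abs_neg]; linarith
      _ = r := by rw [hs']; ring
  have hvolbox := volume_cube (d := d) s hs0
  have h1 : ENNReal.ofReal ((2 * s) ^ d) ≤
      ((Lg g ∩ Win C r).ncard : ℝ≥0∞) * volume (Pg g) := by
    rw [← hvolbox]
    refine (measure_mono hcov).trans ?_
    refine (measure_biUnion_finset_le _ _).trans ?_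
    have : ∀ x ∈ hfin.toFinset, volume ((fun y => x + y) '' Pg g) = volume (Pg g) := by
      intro x _
      rw [image_add_left, measure_preimage_add]
    rw [Finset.sum_congr rfl this, Finset.sum_const, nsmul_eq_mul,
      ← Set.ncard_eq_toFinset_card _ hfin]
  rw [hvolP, ← ENNReal.ofReal_natCast, ← ENNReal.ofReal_mul (by positivity)] at h1
  have h2 : (2 * s) ^ d ≤ ((Lg g ∩ Win C r).ncard : ℝ) * vP :=
    (ENNReal.ofReal_le_ofReal_iff (by positivity)).1 h1
  rw [ENNReal.le_div_iff_mul_le (Or.inl (by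
    have : (0 : ℝ) < (2 * r) ^ d := by positivity
    exact (ENNReal.ofReal_pos.2 this).ne')) (Or.inl ENNReal.ofReal_ne_top), hvolC,
    ← ENNReal.ofReal_natCast, ← ENNReal.ofReal_mul (by
      have : 0 ≤ (1 - (a1 + P) / r) := by
        rw [sub_nonneg, div_le_one hr0]; linarith
      positivity),
    ← ENNReal.ofReal_mul (by positivity)]
  apply ENNReal.ofReal_le_ofReal
  have e : vC / vP * (1 - (a1 + P) / r) ^ d * (2 * r) ^ d = vC / vP * (2 * s) ^ d := by
    rw [mul_assoc, ← mul_pow]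
    congr 2
    rw [hs']; field_simp
  rw [e]
  calc vC / vP * (2 * s) ^ d
      ≤ vC / vP * (((Lg g ∩ Win C r).ncard : ℝ) * vP) := by gcongr
    _ = ((Lg g ∩ Win C r).ncard : ℝ) * vC := by field_simp

end Pool.Agent.H.MP_929345_co.Ly
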