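import Pool.Agent.H.MP_929345_co.Ly.Df

/-! The volume of the parallelepiped. -/

set_option autoImplicit false

open MeasureTheory Set Filter
open scoped Topology ENNReal

namespace Pool.Agent.H.MP_929345_co.Ly

open Pool.Agent.H.MP_929345_co Pool.Agent.H.MP_929345_co.Pl

private theorem Vo_solve {a b : V} (hab : cr a b ≠ 0) (s t : ℝ) :
    ∃ w : V, ev a w = s ∧ ev b w = t := by
  refine ⟨![(s * b 1 - t * a 1) / cr a b, (a 0 * t - b 0 * s) / cr a b], ?_, ?_⟩
  · simp only [ev, Matrix.cons_val_zero, Matrix.cons_val_one]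
    field_simp
    rw [cr]
    ring
  · simp only [ev, Matrix.cons_val_zero, Matrix.cons_val_one]
    field_simp
    rw [cr]
    ring

private theorem Vo_cube (n : ℕ) :
    volume {y : Fin n → ℝ | ∀ i, |y i| ≤ 1} = ENNReal.ofReal (2 ^ n) := by
  have h : {y : Fin n → ℝ | ∀ i, |y i| ≤ 1} = Set.pi Set.univ (fun _ => Set.Icc (-1) 1) := by
    ext y
    simp only [Set.mem_ofPred_eq, Set.mem_pi, Set.mem_univ, true_implies, Set.mem_Icc, abs_le]
  rw [h, volume_pi_pi]
  simp only [Real.volume_Icc, Finset.prod_const, Finset.card_univ, Fintype.card_fin]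
  rw [ENNReal.ofReal_pow (by norm_num)]
  norm_num

private theorem Vo_meas {n : ℕ} (a b : V) (F H : (Fin n → ℝ) → ℝ) (hF : Continuous F)
    (hH : Continuous H) (α β : ℝ) : MeasurableSet {p : V × (Fin n → ℝ) |
      |ev a p.1 + F p.2| ≤ α ∧ |ev b p.1 + H p.2| ≤ β ∧ ∀ i, |p.2 i| ≤ 1} := by
  have h1 : IsClosed {p : V × (Fin n → ℝ) | |ev a p.1 + F p.2| ≤ α} :=
    isClosed_le (by unfold ev; fun_prop) continuous_const
  have h2 : IsClosed {p : V × (Fin n → ℝ) | |ev b p.1 + H p.2| ≤ β} :=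
    isClosed_le (by unfold ev; fun_prop) continuous_const
  have h3 : IsClosed {p : V × (Fin n → ℝ) | ∀ i, |p.2 i| ≤ 1} := by
    rw [Set.ofPred_forall]
    exact isClosed_iInter fun i => isClosed_le (by fun_prop) continuous_const
  exact (h1.inter (h2.inter h3)).measurableSet

private theorem Vo_T {n : ℕ} {a b : V} (hab : cr a b ≠ 0) (F H : (Fin n → ℝ) → ℝ)
    (hF : Continuous F) (hH : Continuous H) (α β : ℝ) :
    volume {p : V × (Fin n → ℝ) |
      |ev a p.1 + F p.2| ≤ α ∧ |ev b p.1 + H p.2| ≤ β ∧ ∀ i, |p.2 i| ≤ 1} =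
      volume {v : V | |ev a v| ≤ α ∧ |ev b v| ≤ β} * ENNReal.ofReal (2 ^ n) := by
  rw [Measure.volume_eq_prod, Measure.prod_apply_symm (Vo_meas a b F H hF hH α β), ← Vo_cube n]
  have hQ : MeasurableSet {y : Fin n → ℝ | ∀ i, |y i| ≤ 1} := by
    rw [Set.ofPred_forall]
    exact (isClosed_iInter fun i => isClosed_le (by fun_prop) continuous_const).measurableSet
  rw [← lintegral_indicator_const hQ]
  refine lintegral_congr fun y => ?_
  by_cases hy : y ∈ {y : Fin n → ℝ | ∀ i, |y i| ≤ 1}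
  · rw [Set.indicator_of_mem hy]
    obtain ⟨w, hw1, hw2⟩ := Vo_solve hab (F y) (H y)
    rw [← measure_preimage_add_right volume w {v : V | |ev a v| ≤ α ∧ |ev b v| ≤ β}]
    congr 1
    ext v
    simp only [Set.mem_preimage, Set.mem_ofPred_eq, ev_add, hw1, hw2]
    exact ⟨fun h => ⟨h.1, h.2.1⟩, fun h => ⟨h.1, h.2, hy⟩⟩
  · rw [Set.indicator_of_notMem hy]
    convert measure_empty (μ := (volume : Measure V))
    ext v
    simp only [Set.mem_preimage, Set.mem_ofPred_eq, Set.mem_empty_iff_false, iff_false]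
    exact fun h => hy h.2.2

variable {d n : ℕ} (A : (Fin d → ℝ) ≃L[ℝ] V × (Fin n → ℝ))

/-- The set is `A ⁻¹' T` with `T` a set of pairs `(v, y)`; for fixed `y` the set of all `v` is a
translate of the parallelogram `{v | |ev a v| ≤ α ∧ |ev b v| ≤ β}` (there is a vector `w` with
`ev a w = f (A.symm (0, y))`, `ev b w = h (A.symm (0, y))`, because `cr a b ≠ 0`), so the volume
is computed by `Measure.prod_apply_symm`. -/
theorem vol_par {k : ℝ} (hk : 0 < k) (hvol : ∀ T : Set (V × (Fin n → ℝ)), MeasurableSet T →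
      volume (A ⁻¹' T) = ENNReal.ofReal k * volume T) (a b : V) (hab : cr a b ≠ 0)
    (f h : (Fin d → ℝ) →L[ℝ] ℝ) (hf : ∀ v : V, f (A.symm (v, 0)) = ev a v)
    (hh : ∀ v : V, h (A.symm (v, 0)) = ev b v) (α β : ℝ) :
    volume {x : Fin d → ℝ | |f x| ≤ α ∧ |h x| ≤ β ∧ ∀ i, |(A x).2 i| ≤ 1} =
      ENNReal.ofReal (k * 2 ^ n) * volume {v : V | |ev a v| ≤ α ∧ |ev b v| ≤ β} := by
  have key : ∀ (g : (Fin d → ℝ) →L[ℝ] ℝ) (c : V), (∀ v : V, g (A.symm (v, 0)) = ev c v) →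
      ∀ x, g x = ev c (A x).1 + g (A.symm (0, (A x).2)) := by
    intro g c hg x
    rw [← hg, ← map_add, ← map_add]
    congr 1
    rw [Prod.mk_add_mk, add_zero, zero_add, Prod.mk.eta, ContinuousLinearEquiv.symm_apply_apply]
  have hc : ∀ g : (Fin d → ℝ) →L[ℝ] ℝ,
      Continuous fun y : Fin n → ℝ => g (A.symm ((0 : V), y)) := by
    intro g
    exact g.continuous.comp (A.symm.continuous.comp (by fun_prop))
  have e : {x : Fin d → ℝ | |f x| ≤ α ∧ |h x| ≤ β ∧ ∀ i, |(A x).2 i| ≤ 1} =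
      A ⁻¹' {p : V × (Fin n → ℝ) | |ev a p.1 + f (A.symm (0, p.2))| ≤ α ∧
        |ev b p.1 + h (A.symm (0, p.2))| ≤ β ∧ ∀ i, |p.2 i| ≤ 1} := by
    ext x
    rw [Set.mem_preimage, Set.mem_ofPred_eq, Set.mem_ofPred_eq, ← key f a hf x, ← key h b hh x]
  rw [e, hvol _ (Vo_meas a b _ _ (hc f) (hc h) α β), Vo_T hab _ _ (hc f) (hc h) α β,
    ENNReal.ofReal_mul hk.le, mul_assoc, mul_comm (volume _)]

end Pool.Agent.H.MP_929345_co.Ly
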