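import Pool.Agent.H.MP_929345_co.Ly.Lb
import Pool.Agent.H.MP_929345_co.Ly.Lc
import Pool.Agent.H.MP_929345_co.Ly.Vo
import Pool.Agent.H.MP_929345_co.Ly.Hb

/-! The lower bound: layered lattice packings. -/

set_option autoImplicit false

open MeasureTheory Set Filter
open scoped Topology ENNReal

namespace Pool.Agent.H.MP_929345_co.Ly

open Pool.Agent.H.MP_929345_co Pool.Agent.H.MP_929345_co.Pl

variable {n : ℕ} (A : (Fin (n + 2) → ℝ) ≃L[ℝ] V × (Fin n → ℝ)) {C : Set (Fin (n + 2) → ℝ)}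

/-- The functionals `f / α`, `h / β` and the coordinates of `(A x).2` are linearly independent
(`Fin.cons f' (Fin.cons h' u)`). -/
theorem li_cons (u : Fin n → ((Fin (n + 2) → ℝ) →L[ℝ] ℝ)) (hA : ∀ x i, (A x).2 i = u i x)
    (a b : V) (hab : cr a b ≠ 0) (f h : (Fin (n + 2) → ℝ) →L[ℝ] ℝ)
    (hf : ∀ v : V, f (A.symm (v, 0)) = ev a v) (hh : ∀ v : V, h (A.symm (v, 0)) = ev b v)
    {α β : ℝ} (hα : 0 < α) (hβ : 0 < β) :
    LinearIndependent ℝ (Fin.cons (α⁻¹ • f) (Fin.cons (β⁻¹ • h) u) :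
      Fin (n + 2) → ((Fin (n + 2) → ℝ) →L[ℝ] ℝ)) := by
  rw [Fintype.linearIndependent_iff]
  intro c hc
  have hval : ∀ x : Fin (n + 2) → ℝ, c 0 * (α⁻¹ * f x) + (c 1 * (β⁻¹ * h x) +
      ∑ i : Fin n, c i.succ.succ * u i x) = 0 := by
    intro x
    have h1 := congrArg (fun F : (Fin (n + 2) → ℝ) →L[ℝ] ℝ => F x) hc
    simpa [Fin.sum_univ_succ, smul_eq_mul] using h1
  have hu0 : ∀ (v : V) (i : Fin n), u i (A.symm (v, 0)) = 0 := by
    intro v i
    rw [← hA, A.apply_symm_apply]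
    rfl
  have h2 : ∀ v : V, c 0 * (α⁻¹ * ev a v) + c 1 * (β⁻¹ * ev b v) = 0 := by
    intro v
    have h3 := hval (A.symm (v, 0))
    rw [hf, hh] at h3
    simpa [hu0] using h3
  have h4 : ∀ w v : V, cr w v = w 0 * v 1 - w 1 * v 0 := fun _ _ => rfl
  have e0 := h2 ![1, 0]
  have e1 := h2 ![0, 1]
  simp [ev] at e0 e1
  have hα' : α⁻¹ ≠ 0 := inv_ne_zero hα.ne'
  have hβ' : β⁻¹ ≠ 0 := inv_ne_zero hβ.ne'
  have c0 : c 0 = 0 := by
    have h5 : c 0 * α⁻¹ * cr a b = 0 := by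
      rw [h4]
      linear_combination b 1 * e0 - b 0 * e1
    rcases mul_eq_zero.1 h5 with h6 | h6
    · rcases mul_eq_zero.1 h6 with h7 | h7
      · exact h7
      · exact absurd h7 hα'
    · exact absurd h6 hab
  have c1 : c 1 = 0 := by
    have h5 : c 1 * β⁻¹ * cr a b = 0 := by
      rw [h4]
      linear_combination a 0 * e1 - a 1 * e0
    rcases mul_eq_zero.1 h5 with h6 | h6
    · rcases mul_eq_zero.1 h6 with h7 | h7
      · exact h7
      · exact absurd h7 hβ'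
    · exact absurd h6 hab
  have c2 : ∀ j : Fin n, c j.succ.succ = 0 := by
    intro j
    have h5 := hval (A.symm (0, Pi.single j 1))
    have h6 : ∀ i : Fin n, u i (A.symm (0, Pi.single j 1)) = (Pi.single j (1 : ℝ) : Fin n → ℝ) i := by
      intro i
      rw [← hA, A.apply_symm_apply]
    simp only [c0, c1, zero_mul, zero_add, h6] at h5
    rw [Finset.sum_eq_single j] at h5
    · simpa using h5
    · intro i _ hij
      rw [Pi.single_eq_of_ne hij, mul_zero]
    · intro hj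
      exact absurd (Finset.mem_univ j) hj
  intro i
  refine Fin.cases c0 (fun i => ?_) i
  refine Fin.cases ?_ (fun i => ?_) i
  · exact c1
  · exact c2 i

/-- One circumscribed parallelogram: take `f`, `h` from `exists_ext` for `a`, `b`,
`α = hs (Ks A C) a`, `β = hs (Ks A C) b` and the lattice `Lg (Fin.cons ...)`. -/
theorem lay_one (hC : IsBody C) (u : Fin n → ((Fin (n + 2) → ℝ) →L[ℝ] ℝ))
    (hA : ∀ x i, (A x).2 i = u i x) (hu : ∀ i, ∀ x ∈ C, |u i x| ≤ 1) {k : ℝ} (hk : 0 < k)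
    (hvol : ∀ T : Set (V × (Fin n → ℝ)), MeasurableSet T →
      volume (A ⁻¹' T) = ENNReal.ofReal k * volume T) {a b : V} (hab : cr a b ≠ 0) :
    ∃ S : Set (Fin (n + 2) → ℝ), IsPacking C S ∧ Layered u S ∧ TotSep C S ∧ IsLat S ∧
      ENNReal.ofReal ((volume C).toReal / (k * 2 ^ n * vl (Par (Ks A C) a b))) ≤ dens C S := by
  obtain ⟨f, hf, hfC⟩ := exists_ext A hC a
  obtain ⟨h, hh, hhC⟩ := exists_ext A hC b
  have hK := ks_isBody A hC
  have hα : 0 < Pl.hs (Ks A C) a := hs_pos hK (cr_ne_zero_left hab)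
  have hβ : 0 < Pl.hs (Ks A C) b := hs_pos hK (cr_ne_zero_right hab)
  obtain ⟨α, hαe⟩ : ∃ α : ℝ, α = Pl.hs (Ks A C) a := ⟨_, rfl⟩
  obtain ⟨β, hβe⟩ : ∃ β : ℝ, β = Pl.hs (Ks A C) b := ⟨_, rfl⟩
  rw [← hαe] at hα hfC
  rw [← hβe] at hβ hhC
  obtain ⟨g, hg⟩ : ∃ g : Fin (n + 2) → ((Fin (n + 2) → ℝ) →L[ℝ] ℝ),
      g = Fin.cons (α⁻¹ • f) (Fin.cons (β⁻¹ • h) u) := ⟨_, rfl⟩
  have hli : LinearIndependent ℝ g := by
    rw [hg]
    exact li_cons A u hA a b hab f h hf hh hα hβ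
  have g0 : ∀ x, g 0 x = α⁻¹ * f x := by
    intro x
    rw [hg]
    rfl
  have g1 : ∀ x, g 1 x = β⁻¹ * h x := by
    intro x
    rw [hg]
    rfl
  have g2 : ∀ (i : Fin n) x, g i.succ.succ x = u i x := by
    intro i x
    rw [hg]
    rfl
  have hall : ∀ (p : Fin (n + 2) → Prop), p 0 → p 1 → (∀ i : Fin n, p i.succ.succ) → ∀ i, p i := by
    intro p p0 p1 p2 i
    refine Fin.cases p0 (fun i => ?_) i
    refine Fin.cases ?_ (fun i => ?_) i
    · exact p1
    · exact p2 i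
  have ea : ∀ x, |g 0 x| ≤ 1 ↔ |f x| ≤ α := by
    intro x
    rw [g0, abs_mul, abs_of_pos (inv_pos.2 hα), inv_mul_le_iff₀ hα, mul_one]
  have eb : ∀ x, |g 1 x| ≤ 1 ↔ |h x| ≤ β := by
    intro x
    rw [g1, abs_mul, abs_of_pos (inv_pos.2 hβ), inv_mul_le_iff₀ hβ, mul_one]
  have hgC : ∀ i, ∀ x ∈ C, |g i x| ≤ 1 := by
    refine hall _ ?_ ?_ ?_
    · intro x hx
      exact (ea x).2 (hfC x hx)
    · intro x hx
      exact (eb x).2 (hhC x hx)
    · intro i x hx
      rw [g2]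
      exact hu i x hx
  refine ⟨Lg g, lg_packing hC g hli hgC, ?_, lg_totSep hC g hli hgC, lg_isLat g hli, ?_⟩
  · intro x hx y hy
    by_cases hxy : ∀ i, u i x = u i y
    · exact Or.inl hxy
    · right
      push Not at hxy
      obtain ⟨i, hi⟩ := hxy
      refine ⟨i, ?_⟩
      obtain ⟨m, hm⟩ := hx i.succ.succ
      obtain ⟨m', hm'⟩ := hy i.succ.succ
      rw [g2] at hm hm'
      have hne : m ≠ m' := by
        rintro rfl
        exact hi (hm.trans hm'.symm)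
      have h1 : (1 : ℤ) ≤ |m - m'| := Int.one_le_abs (sub_ne_zero.2 hne)
      have h2 : (1 : ℝ) ≤ |(m : ℝ) - m'| := by exact_mod_cast h1
      have e : u i x - u i y = 2 * ((m : ℝ) - m') := by
        rw [hm, hm']
        ring
      rw [e, abs_mul, abs_two]
      linarith
  · have hvP : (volume (Pg g)).toReal = k * 2 ^ n * vl (Par (Ks A C) a b) := by
      have e : Pg g = {x : Fin (n + 2) → ℝ | |f x| ≤ α ∧ |h x| ≤ β ∧ ∀ i, |(A x).2 i| ≤ 1} := by
        ext x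
        constructor
        · intro hx
          refine ⟨(ea x).1 (hx 0), (eb x).1 (hx 1), fun i => ?_⟩
          rw [hA, ← g2]
          exact hx i.succ.succ
        · rintro ⟨h1, h2, h3⟩
          have : ∀ i, |g i x| ≤ 1 := by
            refine hall _ ((ea x).2 h1) ((eb x).2 h2) fun i => ?_
            rw [g2, ← hA]
            exact h3 i
          exact this
      rw [e, vol_par A hk hvol a b hab f h hf hh α β, ENNReal.toReal_mul,
        ENNReal.toReal_ofReal (by positivity), hαe, hβe]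
      rfl
    have h1 := lg_dens hC g hli hgC
    rw [hvP] at h1
    exact h1

/-- The supremum over the circumscribed parallelograms, as in `Pl.cyl_lower` (Pl/CyG.lean). -/
theorem lay_lower (hC : IsBody C) (u : Fin n → ((Fin (n + 2) → ℝ) →L[ℝ] ℝ))
    (hA : ∀ x i, (A x).2 i = u i x) (hu : ∀ i, ∀ x ∈ C, |u i x| ≤ 1) {k : ℝ} (hk : 0 < k)
    (hvol : ∀ T : Set (V × (Fin n → ℝ)), MeasurableSet T →
      volume (A ⁻¹' T) = ENNReal.ofReal k * volume T) :
    ENNReal.ofReal ((volume C).toReal / (k * 2 ^ n * beta (Ks A C))) ≤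
      ⨆ S ∈ {S : Set (Fin (n + 2) → ℝ) |
        IsPacking C S ∧ Layered u S ∧ TotSep C S ∧ IsLat S}, dens C S := by
  obtain ⟨D, hD⟩ : ∃ D : ℝ, D = k * 2 ^ n := ⟨_, rfl⟩
  have hD0 : 0 < D := by
    rw [hD]
    positivity
  have hK := ks_isBody A hC
  rw [← hD]
  set M := ⨆ S ∈ {S : Set (Fin (n + 2) → ℝ) |
        IsPacking C S ∧ Layered u S ∧ TotSep C S ∧ IsLat S}, dens C S with hM
  by_contra hcon
  push Not at hcon
  have hMtop : M ≠ ⊤ := ne_top_of_lt hcon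
  have hm0 : 0 ≤ M.toReal := ENNReal.toReal_nonneg
  have hMm : M = ENNReal.ofReal M.toReal := (ENNReal.ofReal_toReal hMtop).symm
  have hlt : M.toReal < (volume C).toReal / (D * beta (Ks A C)) := by
    rw [hMm] at hcon
    exact (ENNReal.ofReal_lt_ofReal_iff_of_nonneg hm0).mp hcon
  have hβ := beta_pos hK
  have hmβ : M.toReal * (D * beta (Ks A C)) < (volume C).toReal := by
    rwa [lt_div_iff₀ (mul_pos hD0 hβ)] at hlt
  obtain ⟨a, b, hab, hlt2⟩ : ∃ a b : V, cr a b ≠ 0 ∧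
      M.toReal * (D * vl (Par (Ks A C) a b)) < (volume C).toReal := by
    rcases hm0.eq_or_lt with h0 | h0
    · refine ⟨![1, 0], ![0, 1], by simp [cr], ?_⟩
      rw [← h0, zero_mul] at hmβ ⊢
      exact hmβ
    · have h1 : beta (Ks A C) < (volume C).toReal / (M.toReal * D) := by
        rw [lt_div_iff₀ (mul_pos h0 hD0)]
        calc beta (Ks A C) * (M.toReal * D) = M.toReal * (D * beta (Ks A C)) := by ring
          _ < (volume C).toReal := hmβ
      have hne : ({t | ∃ a b : V, cr a b ≠ 0 ∧ t = vl (Par (Ks A C) a b)} : Set ℝ).Nonempty :=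
        ⟨_, ![1, 0], ![0, 1], by simp [cr], rfl⟩
      obtain ⟨t, ⟨a, b, hab, rfl⟩, ht⟩ := exists_lt_of_csInf_lt hne h1
      refine ⟨a, b, hab, ?_⟩
      rw [lt_div_iff₀ (mul_pos h0 hD0)] at ht
      calc M.toReal * (D * vl (Par (Ks A C) a b)) = vl (Par (Ks A C) a b) * (M.toReal * D) := by
            ring
        _ < (volume C).toReal := ht
  have hPar : 0 < vl (Par (Ks A C) a b) := lt_of_lt_of_le hβ (beta_le hK hab)
  obtain ⟨X, hX1, hX2, hX3, hX4, hX5⟩ := lay_one A hC u hA hu hk hvol hab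
  rw [← hD] at hX5
  have hle : dens C X ≤ M := by
    rw [hM]
    exact le_biSup (dens C) (show X ∈ {S : Set (Fin (n + 2) → ℝ) |
      IsPacking C S ∧ Layered u S ∧ TotSep C S ∧ IsLat S} from ⟨hX1, hX2, hX3, hX4⟩)
  have h1 : ENNReal.ofReal ((volume C).toReal / (D * vl (Par (Ks A C) a b))) ≤
      ENNReal.ofReal M.toReal := by
    rw [← hMm]
    exact hX5.trans hle
  have h2 : (volume C).toReal / (D * vl (Par (Ks A C) a b)) ≤ M.toReal :=
    (ENNReal.ofReal_le_ofReal_iff hm0).mp h1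
  rw [div_le_iff₀ (mul_pos hD0 hPar)] at h2
  exact absurd hlt2 (not_lt.mpr h2)

end Pool.Agent.H.MP_929345_co.Ly
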