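import Pool.Agent.H.MP_929345_co.Ly.Df

/-! From a bound in windows to a bound for the density, for an arbitrary body. -/

set_option autoImplicit false

open MeasureTheory Set Filter
open scoped Topology ENNReal

namespace Pool.Agent.H.MP_929345_co.Ly

open Pool.Agent.H.MP_929345_co Pool.Agent.H.MP_929345_co.Pl

open Classical in
/-- Double counting. -/
private theorem wi_double_count {m : ℕ} {ι : Type*} (F : Finset ι) (p : ι → (Fin m → ℝ))
    {Q Ω : Set (Fin m → ℝ)} (hQ : MeasurableSet Q) (hΩ : ∀ s ∈ F, ∀ q ∈ Q, p s - q ∈ Ω)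
    (M : ℝ≥0∞) (hM : ∀ z, ((F.filter fun s => p s - z ∈ Q).card : ℝ≥0∞) ≤ M) :
    (F.card : ℝ≥0∞) * volume Q ≤ M * volume Ω := by
  have hpre : ∀ s, MeasurableSet {z | p s - z ∈ Q} := fun s =>
    (measurable_const.sub measurable_id) hQ
  have hvol : ∀ s ∈ F, volume Q = ∫⁻ z in Ω, indicator {z | p s - z ∈ Q} 1 z := by
    intro s hs
    rw [lintegral_indicator_one (hpre s), Measure.restrict_apply (hpre s)]
    have hsub : {z | p s - z ∈ Q} ⊆ Ω := by
      intro z hz
      have := hΩ s hs (p s - z) hz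
      rwa [sub_sub_cancel] at this
    rw [inter_eq_self_of_subset_left hsub]
    exact ((Measure.measurePreserving_sub_left volume (p s)).measure_preimage hQ.nullMeasurableSet).symm
  calc (F.card : ℝ≥0∞) * volume Q = ∑ s ∈ F, volume Q := by
        rw [Finset.sum_const, nsmul_eq_mul]
    _ = ∑ s ∈ F, ∫⁻ z in Ω, indicator {z | p s - z ∈ Q} 1 z := Finset.sum_congr rfl hvol
    _ = ∫⁻ z in Ω, ∑ s ∈ F, indicator {z | p s - z ∈ Q} 1 z := by
        rw [lintegral_finsetSum]
        intro s _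
        exact measurable_one.indicator (hpre s)
    _ ≤ ∫⁻ _ in Ω, M := by
        apply lintegral_mono
        intro z
        refine le_trans (le_of_eq ?_) (hM z)
        simp only [indicator, mem_setOf_eq, Pi.one_apply]
        rw [Finset.sum_boole]
    _ = M * volume Ω := by rw [setLIntegral_const]

variable {d n : ℕ} (A : (Fin d → ℝ) ≃L[ℝ] V × (Fin n → ℝ)) {C : Set (Fin d → ℝ)}

/-- Copy of `Pl.dens_le_window` (Pl/CyF.lean), with `C` in place of `Cyl A K`;
`wi_double_count` above replaces `double_count`. -/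
theorem dens_le_win (hC : IsBody C) {S : Set (Fin d → ℝ)} (hS : IsPacking C S) {k : ℝ}
    (hk : 0 < k) (hvol : ∀ T : Set (V × (Fin n → ℝ)), MeasurableSet T →
      volume (A ⁻¹' T) = ENNReal.ofReal k * volume T)
    {R M : ℝ} (hR : 1 ≤ R) (hM0 : 0 ≤ M)
    (hM : ∀ (z : V × (Fin n → ℝ)) (F : Finset (Fin d → ℝ)),
      (∀ s ∈ F, s ∈ S ∧ ‖A s - z‖ ≤ R) → (F.card : ℝ) ≤ M) :
    dens C S ≤ ENNReal.ofReal (M * ((volume C).toReal / (k * (2 * R) ^ (n + 2)))) := by
  classical
  have hR0 : 0 < R := by linarith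
  set v : ℝ := (volume C).toReal with hv
  have hv0 : 0 ≤ v := ENNReal.toReal_nonneg
  have hvolC : volume C = ENNReal.ofReal v := by
    rw [hv, ENNReal.ofReal_toReal hC.compact.measure_lt_top.ne]
  set Q : Set (Fin d → ℝ) := A ⁻¹' Metric.closedBall 0 R with hQ
  have hQm : MeasurableSet Q := (Metric.isClosed_closedBall.preimage A.continuous).measurableSet
  have hvolQ : volume Q = ENNReal.ofReal (k * (2 * R) ^ (n + 2)) := by
    have e : (Metric.closedBall (0 : V × (Fin n → ℝ)) R)
        = Metric.closedBall (0 : V) R ×ˢ Metric.closedBall (0 : Fin n → ℝ) R := by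
      rw [closedBall_prod_same]; rfl
    rw [hQ, hvol _ Metric.isClosed_closedBall.measurableSet, e, Measure.volume_eq_prod,
      Measure.prod_prod, Real.volume_pi_closedBall _ hR0.le, Real.volume_pi_closedBall _ hR0.le,
      Fintype.card_fin, Fintype.card_fin, ← ENNReal.ofReal_mul (by positivity),
      ← ENNReal.ofReal_mul hk.le]
    congr 2
    ring
  -- the norm of `A.symm`
  set c : ℝ := ‖(A.symm : V × (Fin n → ℝ) →L[ℝ] (Fin d → ℝ))‖ * R with hc
  have hc0 : 0 ≤ c := by positivity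
  have hQc : ∀ q ∈ Q, ∀ i, |q i| ≤ c := by
    intro q hq i
    have h1 : ‖A q‖ ≤ R := by simpa [hQ] using hq
    have h2 := (A.symm : V × (Fin n → ℝ) →L[ℝ] (Fin d → ℝ)).le_opNorm (A q)
    have h3 : (A.symm : V × (Fin n → ℝ) →L[ℝ] (Fin d → ℝ)) (A q) = q := A.symm_apply_apply q
    rw [h3] at h2
    have h4 := norm_le_pi_norm q i
    rw [Real.norm_eq_abs] at h4
    exact h4.trans (h2.trans (mul_le_mul_of_nonneg_left h1 (norm_nonneg _)))
  have h0C : (0 : Fin d → ℝ) ∈ C := by
    obtain ⟨x, hx⟩ := hC.nonempty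
    have hx' := interior_subset hx
    have := hC.convex hx' (hC.symm x hx') (by norm_num : (0 : ℝ) ≤ 1 / 2)
      (by norm_num : (0 : ℝ) ≤ 1 / 2) (by norm_num)
    simpa using this
  rw [dens_def]
  have hlim : Tendsto (fun r : ℝ => ENNReal.ofReal
      (M * (v / (k * (2 * R) ^ (n + 2))) * (1 + c / r) ^ d)) atTop
      (𝓝 (ENNReal.ofReal (M * (v / (k * (2 * R) ^ (n + 2)))))) := by
    have h1 : Tendsto (fun r : ℝ => M * (v / (k * (2 * R) ^ (n + 2))) * (1 + c / r) ^ d) atTop
        (𝓝 (M * (v / (k * (2 * R) ^ (n + 2))) * (1 + 0) ^ d)) :=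
      ((tendsto_const_nhds.add (tendsto_const_nhds.div_atTop tendsto_id)).pow d).const_mul _
    simp only [add_zero, one_pow, mul_one] at h1
    exact ENNReal.tendsto_ofReal h1
  rw [← hlim.limsup_eq]
  refine limsup_le_limsup ?_
  filter_upwards [eventually_ge_atTop 1] with r hr
  have hr0 : 0 < r := by linarith
  have hfin : (S ∩ Win C r).Finite :=
    finite_inter hC (fun x hx y hy hne => by linarith [hS x hx y hy hne]) hr0.le
  set F := hfin.toFinset with hF
  have hcard : (S ∩ Win C r).ncard = F.card := Set.ncard_eq_toFinset_card _ hfin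
  have hdc := wi_double_count F (fun s => s) (Q := Q) (Ω := {x : Fin d → ℝ | ∀ i, |x i| ≤ r + c})
    hQm
    (by
      intro s hs q hq i
      rw [hF, Set.Finite.mem_toFinset] at hs
      have h1 := hs.2 0 h0C i
      have h2 := hQc q hq i
      simp only [Pi.zero_apply, add_zero] at h1
      rw [Pi.sub_apply]
      refine (abs_sub _ _).trans ?_
      linarith)
    (ENNReal.ofReal M)
    (by
      intro z
      rw [← ENNReal.ofReal_natCast]
      refine ENNReal.ofReal_le_ofReal (hM (A z) _ ?_)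
      intro s hs
      rw [Finset.mem_filter, hF, Set.Finite.mem_toFinset] at hs
      refine ⟨hs.1.1, ?_⟩
      rw [← map_sub]
      have := hs.2
      simpa [hQ] using this)
  obtain ⟨N, hN⟩ : ∃ N : ℕ, N = F.card := ⟨_, rfl⟩
  rw [← hN] at hdc hcard
  clear_value F
  have hN0 : (0 : ℝ) ≤ (N : ℝ) := Nat.cast_nonneg _
  have hpos1 : 0 ≤ M * (2 * (r + c)) ^ d := by positivity
  rw [hvolQ, volume_cube _ (by linarith), ← ENNReal.ofReal_natCast,
    ← ENNReal.ofReal_mul hN0, ← ENNReal.ofReal_mul hM0] at hdc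
  have h6 := (ENNReal.ofReal_le_ofReal_iff hpos1).1 hdc
  rw [ENNReal.div_le_iff (by
      have : (0 : ℝ) < (2 * r) ^ d := by positivity
      exact (ENNReal.ofReal_pos.2 this).ne') ENNReal.ofReal_ne_top, hvolC, hcard,
    ← ENNReal.ofReal_natCast, ← ENNReal.ofReal_mul hN0,
    ← ENNReal.ofReal_mul (by positivity)]
  apply ENNReal.ofReal_le_ofReal
  have e1 : M * (v / (k * (2 * R) ^ (n + 2))) * (1 + c / r) ^ d * (2 * r) ^ d
      = M * (2 * (r + c)) ^ d * (v / (k * (2 * R) ^ (n + 2))) := by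
    have : (1 + c / r) ^ d * (2 * r) ^ d = (2 * (r + c)) ^ d := by
      rw [← mul_pow]; congr 1; field_simp
    rw [mul_assoc, this]; ring
  have e2 : (N : ℝ) * v
      = (N : ℝ) * (k * (2 * R) ^ (n + 2)) * (v / (k * (2 * R) ^ (n + 2))) := by
    field_simp
  rw [e1, e2]
  exact mul_le_mul_of_nonneg_right h6 (by positivity)

end Pool.Agent.H.MP_929345_co.Ly
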