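import Pool.Agent.H.MP_929345_co.Ly.Ts
import Pool.Agent.H.MP_929345_co.Ly.Wi
import Pool.Agent.H.MP_929345_co.Pl.CyF

/-! The upper bound for the density of layered packings. -/

set_option autoImplicit false

open MeasureTheory Set Filter
open scoped Topology ENNReal

namespace Pool.Agent.H.MP_929345_co.Ly

open Pool.Agent.H.MP_929345_co Pool.Agent.H.MP_929345_co.Pl

variable {d n : ℕ} (A : (Fin d → ℝ) ≃L[ℝ] V × (Fin n → ℝ)) {C : Set (Fin d → ℝ)}

/-- Copy of `Pl.cyl_upper` (Pl/CyF.lean): `count_bound (ks_isBody A hC)`, `lay_TS`,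
`window_count A (ks_isBody A hC)` for the packing `lay_packing A hC hS hL` of the cylinder, and
`dens_le_win`. -/
theorem lay_upper (hC : IsBody C) {k : ℝ} (hk : 0 < k)
    (hvol : ∀ T : Set (V × (Fin n → ℝ)), MeasurableSet T →
      volume (A ⁻¹' T) = ENNReal.ofReal k * volume T) :
    ∃ ρ0 : ℝ, 1 ≤ ρ0 ∧ ∀ ρ ≥ ρ0, ∀ S : Set (Fin d → ℝ), IsPacking C S → RhoSep ρ C S →
      LayA A S → dens C S ≤
        ENNReal.ofReal ((volume C).toReal / (k * 2 ^ n * beta (Ks A C))) := by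
  have hK := ks_isBody A hC
  obtain ⟨R0, K', hcount⟩ := count_bound hK
  obtain ⟨ρ0, hρ0, hsec⟩ := lay_TS A hC R0
  refine ⟨ρ0, hρ0, ?_⟩
  intro ρ hρ S hS hSρ hL
  have hb := beta_pos hK
  have hTS := hsec ρ hρ S hSρ hL
  have hSc := lay_packing A hC hS hL
  set v : ℝ := (volume C).toReal with hv
  have hv0 : 0 ≤ v := ENNReal.toReal_nonneg
  have hbound : ∀ R : ℝ, 1 ≤ R → dens C S ≤ ENNReal.ofReal
      (v / (k * 2 ^ n * beta (Ks A C)) * ((1 + K' / 4 / R) * (1 + 1 / R) ^ n)) := by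
    intro R hR
    have hR0 : 0 < R := by linarith
    have hwin := fun (z : V × (Fin n → ℝ)) (F : Finset (Fin d → ℝ))
      (hF : ∀ s ∈ F, s ∈ S ∧ ‖A s - z‖ ≤ R) => window_count A hK hcount hSc hTS z hR F hF
    have hM0 : 0 ≤ (4 * R ^ 2 + K' * R) / beta (Ks A C) * (R + 1) ^ n := by
      have := hwin 0 ∅ (by simp)
      simpa using this
    have h := dens_le_win A hC hS hk hvol hR hM0 hwin
    refine h.trans (le_of_eq ?_)
    congr 1
    rw [pow_add, mul_pow, mul_pow]
    have : (1 + 1 / R) ^ n = (R + 1) ^ n / R ^ n := by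
      rw [← div_pow]; congr 1; field_simp
    rw [this]
    field_simp
    ring
  have hlim : Tendsto (fun R : ℝ => ENNReal.ofReal
      (v / (k * 2 ^ n * beta (Ks A C)) * ((1 + K' / 4 / R) * (1 + 1 / R) ^ n))) atTop
      (𝓝 (ENNReal.ofReal (v / (k * 2 ^ n * beta (Ks A C))))) := by
    have h1 : Tendsto (fun R : ℝ => v / (k * 2 ^ n * beta (Ks A C)) *
        ((1 + K' / 4 / R) * (1 + 1 / R) ^ n)) atTop
        (𝓝 (v / (k * 2 ^ n * beta (Ks A C)) * ((1 + 0) * (1 + 0) ^ n))) :=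
      ((tendsto_const_nhds.add (tendsto_const_nhds.div_atTop tendsto_id)).mul
        ((tendsto_const_nhds.add (tendsto_const_nhds.div_atTop tendsto_id)).pow n)).const_mul _
    simp only [add_zero, one_pow, mul_one] at h1
    exact ENNReal.tendsto_ofReal h1
  refine ge_of_tendsto hlim ?_
  filter_upwards [eventually_ge_atTop 1] with R hR
  exact hbound R hR

end Pool.Agent.H.MP_929345_co.Ly
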