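import Pool.Agent.H.MP_929345_co.Ly.Ea
import Pool.Agent.H.MP_929345_co.Ly.Up
import Pool.Agent.H.MP_929345_co.Ly.Lw

/-! Layered packings: the theorem. -/

set_option autoImplicit false

open MeasureTheory Set Filter
open scoped Topology ENNReal

namespace Pool.Agent.H.MP_929345_co.Ly

open Pool.Agent.H.MP_929345_co Pool.Agent.H.MP_929345_co.Pl

theorem rhoSep_of_totSep {d : ℕ} {C X : Set (Fin d → ℝ)} (ρ : ℝ) (h : TotSep C X) :
    RhoSep ρ C X := by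
  intro c _ x hx y hy hne
  obtain ⟨f, hf, t, h1, h2, h3⟩ := h x hx.1 y hy.1 hne
  exact ⟨f, hf, t, h1, h2, fun z hz => h3 z hz.1⟩

theorem layered {n : ℕ} {C : Set (Fin (n + 2) → ℝ)} (hC : IsBody C)
    (u : Fin n → ((Fin (n + 2) → ℝ) →L[ℝ] ℝ)) (hu : LinearIndependent ℝ u)
    (huC : ∀ i, ∀ x ∈ C, |u i x| ≤ 1) : ∃ ρ0 : ℝ, 1 ≤ ρ0 ∧ ∀ ρ ≥ ρ0,
    ((⨆ S ∈ {S : Set (Fin (n + 2) → ℝ) | IsPacking C S ∧ Layered u S ∧ RhoSep ρ C S},
        dens C S) =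
      ⨆ S ∈ {S : Set (Fin (n + 2) → ℝ) | IsPacking C S ∧ Layered u S ∧ TotSep C S},
        dens C S) ∧
    ((⨆ S ∈ {S : Set (Fin (n + 2) → ℝ) | IsPacking C S ∧ Layered u S ∧ TotSep C S},
        dens C S) =
      ⨆ S ∈ {S : Set (Fin (n + 2) → ℝ) | IsPacking C S ∧ Layered u S ∧ TotSep C S ∧ IsLat S},
        dens C S) := by
  obtain ⟨A, hA⟩ := exists_A u hu
  obtain ⟨κ, hκ0, hκT, hκ⟩ := vol_scale A
  have hk : 0 < κ.toReal := ENNReal.toReal_pos hκ0 hκT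
  have hvol : ∀ T : Set (V × (Fin n → ℝ)), MeasurableSet T →
      volume (A ⁻¹' T) = ENNReal.ofReal κ.toReal * volume T := by
    intro T hT
    rw [hκ T hT, ENNReal.ofReal_toReal hκT]
  have hLA : ∀ S : Set (Fin (n + 2) → ℝ), Layered u S → LayA A S := by
    intro S hS x hx y hy
    rcases hS x hx y hy with h | ⟨i, h⟩
    · left
      funext i
      rw [hA, hA]
      exact h i
    · right
      refine ⟨i, ?_⟩
      rw [hA, hA]
      exact h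
  obtain ⟨ρ0, hρ0, hup⟩ := lay_upper A hC hk hvol
  have hlow := lay_lower A hC u hA huC hk hvol
  have h12 : ∀ ρ ≥ ρ0, (⨆ S ∈ {S : Set (Fin (n + 2) → ℝ) |
      IsPacking C S ∧ Layered u S ∧ RhoSep ρ C S}, dens C S) ≤
      ⨆ S ∈ {S : Set (Fin (n + 2) → ℝ) |
        IsPacking C S ∧ Layered u S ∧ TotSep C S ∧ IsLat S}, dens C S := by
    intro ρ hρ
    refine iSup₂_le fun S hS => ?_
    exact (hup ρ hρ S hS.1 hS.2.2 (hLA S hS.2.1)).trans hlow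
  have h23 : (⨆ S ∈ {S : Set (Fin (n + 2) → ℝ) |
        IsPacking C S ∧ Layered u S ∧ TotSep C S ∧ IsLat S}, dens C S) ≤
      ⨆ S ∈ {S : Set (Fin (n + 2) → ℝ) | IsPacking C S ∧ Layered u S ∧ TotSep C S},
        dens C S := biSup_mono fun X hX => ⟨hX.1, hX.2.1, hX.2.2.1⟩
  have h31 : ∀ ρ : ℝ, (⨆ S ∈ {S : Set (Fin (n + 2) → ℝ) |
      IsPacking C S ∧ Layered u S ∧ TotSep C S}, dens C S) ≤
      ⨆ S ∈ {S : Set (Fin (n + 2) → ℝ) | IsPacking C S ∧ Layered u S ∧ RhoSep ρ C S},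
        dens C S := fun ρ => biSup_mono fun X hX => ⟨hX.1, hX.2.1, rhoSep_of_totSep ρ hX.2.2⟩
  refine ⟨ρ0, hρ0, fun ρ hρ => ⟨le_antisymm ((h12 ρ hρ).trans h23) (h31 ρ),
    le_antisymm ((h31 ρ).trans (h12 ρ hρ)) h23⟩⟩

end Pool.Agent.H.MP_929345_co.Ly
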