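import Pool.Agent.H.MP_929345_co.Ly.Df
import Pool.Agent.H.MP_929345_co.Pl.CyB

/-! The planar section is a body; layered packings are packings of the cylinder. -/

set_option autoImplicit false

open MeasureTheory Set Filter
open scoped Topology ENNReal

namespace Pool.Agent.H.MP_929345_co.Ly

open Pool.Agent.H.MP_929345_co Pool.Agent.H.MP_929345_co.Pl

variable {d n : ℕ} (A : (Fin d → ℝ) ≃L[ℝ] V × (Fin n → ℝ)) {C : Set (Fin d → ℝ)}

/-- The section is compact and convex, symmetric, and contains a neighbourhood of `0`. -/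
theorem ks_isBody (hC : IsBody C) : IsBody (Ks A C) := by
  have hL : Continuous (fun v : V => A.symm (v, (0 : Fin n → ℝ))) :=
    A.symm.continuous.comp (continuous_id.prodMk continuous_const)
  have hadd : ∀ (a b : ℝ) (v w : V), A.symm (a • v + b • w, (0 : Fin n → ℝ)) =
      a • A.symm (v, (0 : Fin n → ℝ)) + b • A.symm (w, (0 : Fin n → ℝ)) := by
    intro a b v w
    rw [← map_smul, ← map_smul, ← map_add]
    simp
  refine ⟨?_, ?_, ?_, ?_⟩
  · intro v hv w hw a b ha hb hab
    change A.symm (a • v + b • w, (0 : Fin n → ℝ)) ∈ C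
    rw [hadd]
    exact hC.convex hv hw ha hb hab
  · have h1 : IsCompact (A '' C ∩ {p : V × (Fin n → ℝ) | p.2 = 0}) :=
      (hC.compact.image A.continuous).inter_right (isClosed_eq continuous_snd continuous_const)
    have h2 : Ks A C = Prod.fst '' (A '' C ∩ {p : V × (Fin n → ℝ) | p.2 = 0}) := by
      ext v
      constructor
      · intro hv
        exact ⟨(v, 0), ⟨⟨A.symm (v, 0), hv, by simp⟩, rfl⟩, rfl⟩
      · rintro ⟨p, ⟨⟨x, hx, rfl⟩, hp⟩, rfl⟩
        change A.symm ((A x).1, (0 : Fin n → ℝ)) ∈ C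
        have h3 : ((A x).1, (0 : Fin n → ℝ)) = A x := Prod.ext rfl hp.symm
        rw [h3, ContinuousLinearEquiv.symm_apply_apply]
        exact hx
    rw [h2]
    exact h1.image continuous_fst
  · have h0 : (0 : Fin d → ℝ) ∈ interior C := hC.zero_mem_interior
    refine ⟨0, interior_maximal (s := Ks A C)
      (t := (fun v : V => A.symm (v, (0 : Fin n → ℝ))) ⁻¹' interior C)
      (fun v (hv : A.symm (v, (0 : Fin n → ℝ)) ∈ interior C) =>
        show A.symm (v, (0 : Fin n → ℝ)) ∈ C from interior_subset hv)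
      (isOpen_interior.preimage hL) ?_⟩
    change A.symm ((0 : V), (0 : Fin n → ℝ)) ∈ interior C
    have h1 : A.symm ((0 : V), (0 : Fin n → ℝ)) = 0 := map_zero A.symm
    rw [h1]
    exact h0
  · intro v hv
    change A.symm (-v, (0 : Fin n → ℝ)) ∈ C
    have h1 : A.symm (-v, (0 : Fin n → ℝ)) = -A.symm (v, (0 : Fin n → ℝ)) := by
      rw [← map_neg]
      simp
    rw [h1]
    exact hC.symm _ hv

/-- Both gauges are the infimum of the same set of numbers (`gauge_def` or
`gauge_preimage`-like argument). -/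
theorem ks_gauge (C : Set (Fin d → ℝ)) (v : V) : gauge (Ks A C) v = gauge C (A.symm (v, 0)) := by
  rw [gauge_def', gauge_def']
  congr 1
  ext r
  have h1 : A.symm (r⁻¹ • v, (0 : Fin n → ℝ)) = r⁻¹ • A.symm (v, (0 : Fin n → ℝ)) := by
    rw [← map_smul]
    simp
  change (r ∈ Ioi (0 : ℝ) ∧ A.symm (r⁻¹ • v, (0 : Fin n → ℝ)) ∈ C) ↔
    (r ∈ Ioi (0 : ℝ) ∧ r⁻¹ • A.symm (v, (0 : Fin n → ℝ)) ∈ C)
  rw [h1]

/-- Use `cyb_gauge A (ks_isBody A hC)`: two centres in the same layer differ by `A.symm (v, 0)`;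
two centres in different layers differ by at least `2` in one of the last coordinates. -/
theorem lay_packing (hC : IsBody C) {S : Set (Fin d → ℝ)} (hS : IsPacking C S)
    (hL : LayA A S) : IsPacking (Cyl A (Ks A C)) S := by
  intro x hx y hy hne
  obtain ⟨h1, h2⟩ := cyb_gauge A (ks_isBody A hC) (x - y)
  rcases hL x hx y hy with h | ⟨i, h⟩
  · have h3 : ((A (x - y)).1, (0 : Fin n → ℝ)) = A (x - y) := by
      refine Prod.ext rfl ?_
      rw [map_sub, Prod.snd_sub, h, sub_self]
    rw [ks_gauge, h3, ContinuousLinearEquiv.symm_apply_apply] at h1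
    exact (hS x hx y hy hne).trans h1
  · refine h.trans ?_
    have h3 := h2 i
    rw [map_sub, Prod.snd_sub, Pi.sub_apply] at h3
    exact h3

end Pool.Agent.H.MP_929345_co.Ly
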