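import Pool.Agent.H.MP_929345_co.Ly.Df

/-! Lattice tilings by parallelepipeds: lattice, packing, total separability. -/

set_option autoImplicit false

open MeasureTheory Set Filter
open scoped Topology ENNReal

namespace Pool.Agent.H.MP_929345_co.Ly

open Pool.Agent.H.MP_929345_co Pool.Agent.H.MP_929345_co.Pl

variable {d : ℕ}

private def la_row : ((Fin d → ℝ) →L[ℝ] ℝ) →ₗ[ℝ] (Fin d → ℝ) where
  toFun f := fun j => f (Pi.single j 1)
  map_add' f g := by funext j; simp
  map_smul' c f := by funext j; simp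

private lemma la_expand (f : (Fin d → ℝ) →L[ℝ] ℝ) (x : Fin d → ℝ) :
    f x = ∑ j, f (Pi.single j 1) * x j := by
  have hx : x = ∑ j, x j • (Pi.single j (1 : ℝ) : Fin d → ℝ) := by
    funext i
    simp [Finset.sum_apply, Pi.single_apply]
  conv_lhs => rw [hx]
  rw [map_sum]
  refine Finset.sum_congr rfl fun j _ => ?_
  rw [map_smul, smul_eq_mul, mul_comm]

private lemma la_row_ker : LinearMap.ker (la_row (d := d)) = ⊥ := by
  rw [LinearMap.ker_eq_bot']
  intro f hf
  ext x
  have h : ∀ j, f (Pi.single j 1) = 0 := fun j => congrFun hf j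
  rw [la_expand]
  simp [h]

/-- A basis of functionals gives coordinates. -/
theorem exists_coord (g : Fin d → ((Fin d → ℝ) →L[ℝ] ℝ)) (hg : LinearIndependent ℝ g) :
    ∃ B : (Fin d → ℝ) ≃L[ℝ] (Fin d → ℝ), ∀ x i, B x i = g i x := by
  set M : Matrix (Fin d) (Fin d) ℝ := fun i j => g i (Pi.single j 1) with hM
  have h1 : LinearIndependent ℝ (fun i => la_row (g i)) := hg.map' _ la_row_ker
  have h2 : IsUnit M := by
    rw [← Matrix.linearIndependent_rows_iff_isUnit]
    exact h1
  have h3 : Function.Injective M.mulVec := Matrix.mulVec_injective_iff_isUnit.2 h2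
  have h4 : Function.Injective (LinearMap.pi fun i => ((g i : (Fin d → ℝ) →L[ℝ] ℝ) :
      (Fin d → ℝ) →ₗ[ℝ] ℝ)) := by
    intro x y hxy
    apply h3
    funext i
    have h5 := congrFun hxy i
    simp only [LinearMap.pi_apply, ContinuousLinearMap.coe_coe] at h5
    rw [la_expand (g i) x, la_expand (g i) y] at h5
    simpa [Matrix.mulVec, dotProduct, hM] using h5
  refine ⟨(LinearEquiv.ofInjectiveEndo _ h4).toContinuousLinearEquiv, fun x i => ?_⟩
  simp

theorem lg_isLat (g : Fin d → ((Fin d → ℝ) →L[ℝ] ℝ)) (hg : LinearIndependent ℝ g) :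
    IsLat (Lg g) := by
  have h2 : LinearIndependent ℝ (fun i => (1 / 2 : ℝ) • g i) := by
    have := hg.units_smul (fun _ => Units.mk0 (1 / 2 : ℝ) (by norm_num))
    exact this
  obtain ⟨B, hB⟩ := exists_coord _ h2
  refine ⟨B, ?_⟩
  ext x
  simp only [Lg, Set.mem_setOf_eq]
  refine forall_congr' fun i => exists_congr fun m => ?_
  rw [hB]
  simp only [ContinuousLinearMap.smul_apply, smul_eq_mul]
  constructor
  · intro h; rw [h]; ring
  · intro h; linarith

/-- If `x ≠ y` then `g i x ≠ g i y` for some `i`, so `2 ≤ |g i (x - y)| ≤ gauge C (x - y)`. -/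
theorem lg_packing {C : Set (Fin d → ℝ)} (hC : IsBody C) (g : Fin d → ((Fin d → ℝ) →L[ℝ] ℝ))
    (hg : LinearIndependent ℝ g) (hgC : ∀ i, ∀ x ∈ C, |g i x| ≤ 1) : IsPacking C (Lg g) := by
  intro x hx y hy hne
  obtain ⟨B, hB⟩ := exists_coord g hg
  have h1 : ∃ i, g i x ≠ g i y := by
    by_contra hcon
    push Not at hcon
    apply hne
    apply B.injective
    funext i
    rw [hB, hB, hcon]
  obtain ⟨i, hi⟩ := h1
  obtain ⟨m, hm⟩ := hx i
  obtain ⟨l, hl⟩ := hy i
  have h2 : (2 : ℝ) ≤ |g i (x - y)| := by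
    rw [map_sub, hm, hl]
    have hml : m ≠ l := by
      rintro rfl
      exact hi (by rw [hm, hl])
    rcases lt_or_gt_of_ne hml with h | h
    · have h5 : (m : ℝ) + 1 ≤ l := by exact_mod_cast h
      rw [abs_of_nonpos (by linarith)]
      linarith
    · have h5 : (l : ℝ) + 1 ≤ m := by exact_mod_cast h
      rw [abs_of_nonneg (by linarith)]
      linarith
  refine h2.trans ?_
  set z := x - y with hz
  rcases (gauge_nonneg (s := C) z).lt_or_eq with hgz | hgz
  · have hm2 : (gauge C z)⁻¹ • z ∈ C := by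
      apply hC.gauge_le_one_iff.1
      rw [gauge_smul_of_nonneg (by positivity), smul_eq_mul, inv_mul_cancel₀ hgz.ne']
    have h3 := hgC i _ hm2
    rw [map_smul, smul_eq_mul, abs_mul, abs_of_pos (by positivity), inv_mul_le_iff₀ hgz,
      mul_one] at h3
    exact h3
  · have hz0 : z = 0 := (hC.gauge_eq_zero_iff z).1 hgz.symm
    rw [hz0]
    simp

end Pool.Agent.H.MP_929345_co.Ly
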