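import Pool.Agent.H.MP_929345_co.Ly.La

/-! Lattice tilings by parallelepipeds: total separability. -/

set_option autoImplicit false

open MeasureTheory Set Filter
open scoped Topology ENNReal

namespace Pool.Agent.H.MP_929345_co.Ly

open Pool.Agent.H.MP_929345_co Pool.Agent.H.MP_929345_co.Pl

variable {d : ℕ}

private lemma lb_int {C : Set (Fin d → ℝ)} {f : (Fin d → ℝ) →L[ℝ] ℝ} (hf : f ≠ 0)
    (h : ∀ x ∈ C, |f x| ≤ 1) {w : Fin d → ℝ} (hw : w ∈ interior C) : |f w| < 1 := by
  have hsurj : Function.Surjective f := by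
    apply LinearMap.surjective (f := (f : (Fin d → ℝ) →ₗ[ℝ] ℝ))
    intro h0
    apply hf
    ext x
    exact congrArg (fun F : (Fin d → ℝ) →ₗ[ℝ] ℝ => F x) h0
  have hop : IsOpenMap f := f.isOpenMap hsurj
  have h1 : IsOpen (f '' interior C) := hop _ isOpen_interior
  have h2 : f '' interior C ⊆ Icc (-1) 1 := by
    rintro _ ⟨v, hv, rfl⟩
    exact abs_le.1 (h v (interior_subset hv))
  have h3 := interior_maximal h2 h1 ⟨w, hw, rfl⟩
  rw [interior_Icc] at h3
  exact abs_lt.2 h3

/-- As in `Pl.cyb_totSep` (Pl/CyB.lean, second half): the hyperplanes `g i = 2 * m + 1`; a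
nonzero functional which is at most `1` on `C` is less than `1` in the interior of `C`. -/
theorem lg_totSep {C : Set (Fin d → ℝ)} (hC : IsBody C) (g : Fin d → ((Fin d → ℝ) →L[ℝ] ℝ))
    (hg : LinearIndependent ℝ g) (hgC : ∀ i, ∀ x ∈ C, |g i x| ≤ 1) : TotSep C (Lg g) := by
  intro x hx y hy hne
  obtain ⟨B, hB⟩ := exists_coord g hg
  obtain ⟨i, hi⟩ : ∃ i, g i x ≠ g i y := by
    by_contra hcon
    push Not at hcon
    apply hne
    apply B.injective
    funext i
    rw [hB, hB, hcon]
  have hgi : g i ≠ 0 := hg.ne_zero i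
  obtain ⟨k, hk⟩ := hx i
  obtain ⟨l, hl⟩ := hy i
  have hkl : k ≠ l := by
    rintro rfl
    exact hi (by rw [hk, hl])
  have hint : ∀ w ∈ interior C, |g i w| < 1 := fun w hw => lb_int hgi (hgC i) hw
  rcases lt_or_gt_of_ne hkl with hlt | hgt
  · have h5 : (k : ℝ) + 1 ≤ l := by exact_mod_cast hlt
    refine ⟨g i, hgi, 2 * k + 1, ?_, ?_, ?_⟩
    · intro w hw
      have := (abs_le.1 (hgC i w hw)).2
      rw [map_add, hk]
      linarith
    · intro w hw
      have := (abs_le.1 (hgC i w hw)).1
      rw [map_add, hl]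
      linarith
    · intro z hz w hw heq
      obtain ⟨m, hm⟩ := hz i
      have h6 := abs_lt.1 (hint w hw)
      rw [map_add, hm] at heq
      rcases lt_trichotomy m k with h | h | h
      · have h7 : (m : ℝ) + 1 ≤ k := by exact_mod_cast h
        linarith [h6.1, h6.2]
      · subst h; linarith [h6.1, h6.2]
      · have h7 : (k : ℝ) + 1 ≤ m := by exact_mod_cast h
        linarith [h6.1, h6.2]
  · have h5 : (l : ℝ) + 1 ≤ k := by exact_mod_cast hgt
    refine ⟨-g i, neg_ne_zero.2 hgi, -(2 * k) + 1, ?_, ?_, ?_⟩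
    · intro w hw
      have := (abs_le.1 (hgC i w hw)).1
      have e : (-g i) (x + w) = -(g i x + g i w) := by
        rw [← map_add]; rfl
      rw [e, hk]
      linarith
    · intro w hw
      have := (abs_le.1 (hgC i w hw)).2
      have e : (-g i) (y + w) = -(g i y + g i w) := by
        rw [← map_add]; rfl
      rw [e, hl]
      linarith
    · intro z hz w hw heq
      obtain ⟨m, hm⟩ := hz i
      have h6 := abs_lt.1 (hint w hw)
      have e : (-g i) (z + w) = -(g i z + g i w) := by
        rw [← map_add]; rfl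
      rw [e, hm] at heq
      rcases lt_trichotomy m k with h | h | h
      · have h7 : (m : ℝ) + 1 ≤ k := by exact_mod_cast h
        linarith [h6.1, h6.2]
      · subst h; linarith [h6.1, h6.2]
      · have h7 : (k : ℝ) + 1 ≤ m := by exact_mod_cast h
        linarith [h6.1, h6.2]

end Pool.Agent.H.MP_929345_co.Ly
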