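import Pool.Agent.H.MP_929345_co.Ly.Kb

/-! Sections of layered `ρ`-separable packings are totally separable in windows. -/

set_option autoImplicit false

open MeasureTheory Set Filter
open scoped Topology ENNReal

namespace Pool.Agent.H.MP_929345_co.Ly

open Pool.Agent.H.MP_929345_co Pool.Agent.H.MP_929345_co.Pl

variable {d n : ℕ} (A : (Fin d → ℝ) ≃L[ℝ] V × (Fin n → ℝ)) {C : Set (Fin d → ℝ)}

private lemma Ts_ball (hC : IsBody C) : ∃ r > 0, Metric.closedBall (0 : Fin d → ℝ) r ⊆ C := by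
  obtain ⟨r, hr, h⟩ := Metric.isOpen_iff.1 isOpen_interior 0 hC.zero_mem_interior
  refine ⟨r / 2, by positivity, ?_⟩
  intro x hx
  apply interior_subset
  apply h
  simp only [Metric.mem_closedBall, Metric.mem_ball] at *
  linarith

private lemma Ts_radius (hC : IsBody C) :
    ∃ R > 0, C ⊆ Metric.closedBall (0 : Fin d → ℝ) R := by
  obtain ⟨R, hR⟩ := hC.compact.isBounded.subset_closedBall (0 : Fin d → ℝ)
  exact ⟨max R 1, by positivity, hR.trans (Metric.closedBall_subset_closedBall (le_max_left _ _))⟩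

/-- Copy of `Pl.mem_cluster` (Pl/CyC.lean) for an arbitrary body: a ball around `0` is inside `C`,
`A` and `A.symm` are bounded. -/
theorem mem_cl (hC : IsBody C) (D : ℝ) : ∃ ρ0 : ℝ, 1 ≤ ρ0 ∧ ∀ ρ ≥ ρ0, ∀ s c : Fin d → ℝ,
    ‖A s - A c‖ ≤ D → ∀ w ∈ C, ∃ v ∈ C, s + w = c + ρ • v := by
  obtain ⟨r, hr, hrC⟩ := Ts_ball hC
  obtain ⟨W, hW, hWC⟩ := Ts_radius hC
  obtain ⟨M, hM⟩ : ∃ M : ℝ, M = ‖(A.symm : V × (Fin n → ℝ) →L[ℝ] (Fin d → ℝ))‖ := ⟨_, rfl⟩
  have hM0 : 0 ≤ M := by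
    rw [hM]
    exact norm_nonneg _
  refine ⟨max 1 ((M * |D| + W) / r), le_max_left _ _, ?_⟩
  intro ρ hρ s c hsc w hw
  have hρ1 : 1 ≤ ρ := (le_max_left _ _).trans hρ
  have hρ0 : 0 < ρ := by linarith
  have hρ2 : (M * |D| + W) / r ≤ ρ := (le_max_right _ _).trans hρ
  have h1 : ‖s - c‖ ≤ M * |D| := by
    have e : s - c = (A.symm : V × (Fin n → ℝ) →L[ℝ] (Fin d → ℝ)) (A s - A c) := by
      rw [map_sub]
      simp
    rw [e, hM]
    refine (ContinuousLinearMap.le_opNorm _ _).trans ?_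
    exact mul_le_mul_of_nonneg_left (hsc.trans (le_abs_self D)) (norm_nonneg _)
  have h2 : ‖w‖ ≤ W := by simpa using hWC hw
  refine ⟨ρ⁻¹ • (s - c + w), hrC ?_, ?_⟩
  · rw [mem_closedBall_zero_iff, norm_smul, norm_inv, Real.norm_eq_abs, abs_of_pos hρ0,
      inv_mul_le_iff₀ hρ0]
    calc ‖s - c + w‖ ≤ ‖s - c‖ + ‖w‖ := norm_add_le _ _
      _ ≤ M * |D| + W := by linarith
      _ ≤ ρ * r := by rwa [div_le_iff₀ hr] at hρ2
  · rw [smul_smul, mul_inv_cancel₀ hρ0.ne', one_smul]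
    abel

/-- Copy of `Pl.sec_TS` (Pl/CyC.lean).  The members `s` with `|(A s).2 i - t i| < 1` for all `i`
lie in one layer (`LayA`), so they have the same `(A s).2 = y`; the points
`s + A.symm (k, 0)`, `k ∈ Ks A C`, are in `s + C`, and
`f (s + A.symm (k, 0)) = ev g (A s).1 + ev g k + F (0, y)`.  Interior points `k` of the section
give interior points `A.symm (k, 0)` of `C` (only needed for `k = 0`); for the other members use
`Pl.dich hC`. -/
theorem lay_TS (hC : IsBody C) (R0 : ℝ) : ∃ ρ0 : ℝ, 1 ≤ ρ0 ∧ ∀ ρ ≥ ρ0,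
    ∀ S : Set (Fin d → ℝ), RhoSep ρ C S → LayA A S → ∀ (t : Fin n → ℝ) (z : V),
      TS (Ks A C) {x | x ∈ Sec A S t ∧ ‖x - z‖ ≤ R0} := by
  have hK : IsBody (Ks A C) := ks_isBody A hC
  obtain ⟨ρ0, hρ0, hcl⟩ := mem_cl A hC (2 * R0 + 2)
  refine ⟨ρ0, hρ0, ?_⟩
  intro ρ hρ S hS hL t z
  rintro x ⟨⟨s, hs, hsx, hst⟩, hxz⟩ y ⟨⟨s', hs', hsy, hst'⟩, hyz⟩ hne
  have hR0 : 0 ≤ R0 := (norm_nonneg _).trans hxz
  -- all members of the section lie in the layer of `s`
  have hlay : ∀ q ∈ S, (∀ i, |(A q).2 i - t i| < 1) → (A q).2 = (A s).2 := by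
    intro q hq hqt
    rcases hL q hq s hs with h | ⟨i, hi⟩
    · exact h
    · exfalso
      have e : (A q).2 i - (A s).2 i = ((A q).2 i - t i) - ((A s).2 i - t i) := by ring
      rw [e] at hi
      have h1 := abs_sub ((A q).2 i - t i) ((A s).2 i - t i)
      linarith [hqt i, hst i]
  -- all members of the window are in the cluster of `s`
  have hin : ∀ q ∈ S, ‖(A q).1 - z‖ ≤ R0 → (∀ i, |(A q).2 i - t i| < 1) →
      q ∈ {c' ∈ S | ∀ w ∈ C, ∃ v ∈ C, c' + w = s + ρ • v} := by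
    intro q hq hqz hqt
    refine ⟨hq, hcl ρ hρ q s ?_⟩
    rw [Prod.norm_def]
    apply max_le
    · have e : (A q - A s).1 = ((A q).1 - z) - ((A s).1 - z) := by
        rw [Prod.fst_sub]; abel
      rw [e]
      refine (norm_sub_le _ _).trans ?_
      rw [hsx]; linarith
    · have e : (A q - A s).2 = 0 := by
        rw [Prod.snd_sub, hlay q hq hqt, sub_self]
      rw [e, norm_zero]
      linarith
  have hss : s ≠ s' := by
    rintro rfl
    exact hne (hsx.symm.trans hsy)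
  have hms := hin s hs (by rw [hsx]; exact hxz) hst
  obtain ⟨f, hf, τ, f1, f2, f3⟩ := hS s hs s hms
    s' (hin s' hs' (by rw [hsy]; exact hyz) hst') hss
  -- the planar functional
  set F : V × (Fin n → ℝ) →L[ℝ] ℝ := f.comp (A.symm : V × (Fin n → ℝ) →L[ℝ] (Fin d → ℝ)) with hF
  obtain ⟨g, hg⟩ := exists_vec (F.comp (ContinuousLinearMap.inl ℝ V (Fin n → ℝ)))
  have hfF : ∀ (q : Fin d → ℝ) (k : V), (A q).2 = (A s).2 → f (q + A.symm (k, 0))
      = ev g (A q).1 + ev g k + F (0, (A s).2) := by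
    intro q k hq2
    have e1 : q + A.symm (k, 0) = A.symm ((A q).1 + k, (A s).2) := by
      apply A.injective
      rw [map_add, A.apply_symm_apply, A.apply_symm_apply]
      ext i
      · rfl
      · simp [hq2]
    have e2 : (((A q).1 + k, (A s).2) : V × (Fin n → ℝ)) =
        ((A q).1 + k, 0) + (0, (A s).2) := by
      ext i <;> simp
    have e3 : ev g ((A q).1 + k) = F ((A q).1 + k, 0) := by
      rw [hg]; rfl
    rw [← ev_add, e3, ← map_add, ← e2, e1]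
    rfl
  have hw : ∀ k ∈ Ks A C, A.symm (k, 0) ∈ C := fun k hk => hk
  obtain ⟨kp, hkp, hkp'⟩ := exists_hs hK.compact ⟨0, zero_mem hK⟩ g
  obtain ⟨km, hkm, hkm'⟩ := exists_hs hK.compact ⟨0, zero_mem hK⟩ (-g)
  rw [hs_neg hK, ev_neg_left] at hkm'
  have hup : ∀ q : Fin d → ℝ, (A q).2 = (A s).2 → (∀ w ∈ C, f (q + w) ≤ τ) →
      ev g (A q).1 + Pl.hs (Ks A C) g ≤ τ - F (0, (A s).2) := by
    intro q hq h
    have := h _ (hw kp hkp)
    rw [hfF q kp hq] at this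
    linarith
  have hdn : ∀ q : Fin d → ℝ, (A q).2 = (A s).2 → (∀ w ∈ C, τ ≤ f (q + w)) →
      τ - F (0, (A s).2) ≤ ev g (A q).1 - Pl.hs (Ks A C) g := by
    intro q hq h
    have := h _ (hw km hkm)
    rw [hfF q km hq] at this
    linarith
  refine ⟨g, τ - F (0, (A s).2), ?_, ?_, ?_, ?_⟩
  · rintro rfl
    have h1 := f1 _ (hw 0 (zero_mem hK))
    have h2 := f2 _ (hw 0 (zero_mem hK))
    rw [hfF s 0 rfl] at h1
    rw [hfF s' 0 (hlay s' hs' hst')] at h2
    rw [ev_zero_left, ev_zero_left] at h1 h2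
    have h00 : A.symm ((0 : V), (0 : Fin n → ℝ)) = 0 := by
      rw [← Prod.zero_eq_mk, map_zero]
    have h3 := f3 s hms (A.symm ((0 : V), (0 : Fin n → ℝ))) (by
      rw [h00]
      exact hC.zero_mem_interior)
    rw [hfF s 0 rfl, ev_zero_left, ev_zero_left] at h3
    exact h3 (le_antisymm h1 h2)
  · rw [← hsx]; exact hup s rfl f1
  · rw [← hsy]; exact hdn s' (hlay s' hs' hst') f2
  · rintro p ⟨⟨q, hq, hqp, hqt⟩, hpz⟩
    rw [← hqp]
    rcases dich hC f q τ (f3 q (hin q hq (by rw [hqp]; exact hpz) hqt)) with h | h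
    · exact Or.inl (hup q (hlay q hq hqt) h)
    · exact Or.inr (hdn q (hlay q hq hqt) h)

end Pool.Agent.H.MP_929345_co.Ly
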